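import Pool.Agent.N99.RF.Depth

/-!
# The core of a member is a member (helper99, task RF/Core)
-/

set_option autoImplicit false

namespace Pool.Agent.N99.RF

open Finset Classical
open Pool.Agent.N375.RF

noncomputable section

theorem core_aux (P : (n : ℕ) → Set (SimpleGraph (Fin n))) (hP : LeafClosed P) (n : ℕ)
    (K : SimpleGraph (Fin n)) (C : Finset (Fin n)) (p : Fin n → Fin n)
    (hK : ∀ x y, K.Adj x y → x ∈ C ∧ y ∈ C) (hp : IsRF C p) (hG : GG K p ∈ P n) (m : ℕ) :
    ∀ S : Finset (Fin n), Sᶜ.card = m → C ⊆ S → (∀ x ∈ S, p x ∈ S) →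
      ∀ (k : ℕ) (g : Fin k → Fin n), Function.Injective g → (∀ x, x ∈ S ↔ ∃ i, g i = x) →
      (GG K p).comap g ∈ P k := by
  induction m with
  | zero =>
    intro S hS hC hcl k g hg hgS
    have hSu : S = univ := by
      rw [card_eq_zero, compl_eq_empty_iff] at hS
      exact hS
    have hsurj : Function.Surjective g := fun x => (hgS x).1 (by rw [hSu]; exact mem_univ x)
    have hkn : k = n := by
      have := Fintype.card_of_bijective (f := g) ⟨hg, hsurj⟩
      simpa using this
    subst hkn
    exact hP.1 k (Equiv.ofBijective g ⟨hg, hsurj⟩) (GG K p) hG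
  | succ m ih =>
    intro S hS hC hcl k g hg hgS
    have hne : Sᶜ.Nonempty := by
      rw [← card_pos, hS]; exact Nat.succ_pos m
    obtain ⟨u, hu, hmin⟩ := exists_min_image Sᶜ (dep C p) hne
    have huS : u ∉ S := mem_compl.1 hu
    have huC : u ∉ C := fun h => huS (hC h)
    have hpu : p u ∈ S := by
      by_contra hcon
      have h1 := hmin (p u) (mem_compl.2 hcon)
      have h2 := dep_succ hp huC
      omega
    have h1 : (insert u S)ᶜ.card = m := by
      rw [card_compl, card_insert_of_notMem huS]
      rw [card_compl] at hS
      omega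
    have h2 := ih (insert u S) h1 (hC.trans (subset_insert u S)) (by
      intro x hx
      rcases mem_insert.1 hx with rfl | hx
      · exact mem_insert_of_mem hpu
      · exact mem_insert_of_mem (hcl x hx)) (k + 1) (Fin.snoc g u : Fin (k + 1) → Fin n) ?_ ?_
    · have h3 : ∃! y : Fin (k + 1), ((GG K p).comap (Fin.snoc g u : Fin (k + 1) → Fin n)).Adj
          (Fin.last k) y := by
        obtain ⟨i, hi⟩ := (hgS (p u)).1 hpu
        refine ⟨i.castSucc, ?_, fun y hy => ?_⟩
        · change (GG K p).Adj ((Fin.snoc g u : Fin (k + 1) → Fin n) (Fin.last k))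
            ((Fin.snoc g u : Fin (k + 1) → Fin n) i.castSucc)
          rw [Fin.snoc_last, Fin.snoc_castSucc, hi]
          exact Or.inr ⟨(ne_self hp huC).symm, Or.inl rfl⟩
        · change (GG K p).Adj ((Fin.snoc g u : Fin (k + 1) → Fin n) (Fin.last k))
            ((Fin.snoc g u : Fin (k + 1) → Fin n) y) at hy
          induction y using Fin.lastCases with
          | last => exact absurd hy (SimpleGraph.irrefl _)
          | cast j =>
            rw [Fin.snoc_last, Fin.snoc_castSucc] at hy
            congr 1
            apply hg
            rw [hi]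
            rcases hy with hy | ⟨-, hy | hy⟩
            · exact absurd (hK _ _ hy).1 huC
            · exact hy.symm
            · exfalso
              apply huS
              rw [← hy]
              exact hcl _ ((hgS _).2 ⟨j, rfl⟩)
      have h4 := (hP.2 k _ (Fin.last k) h3).1 h2
      have h5 : ((GG K p).comap (Fin.snoc g u : Fin (k + 1) → Fin n)).comap
          (Fin.last k).succAbove = (GG K p).comap g := by
        ext x y
        simp only [SimpleGraph.comap_adj, Fin.succAbove_last, Fin.snoc_castSucc]
      rw [h5] at h4
      exact h4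
    · intro x y hxy
      induction x using Fin.lastCases with
      | last =>
        induction y using Fin.lastCases with
        | last => rfl
        | cast j =>
          rw [Fin.snoc_last, Fin.snoc_castSucc] at hxy
          exact absurd ((hgS u).2 ⟨j, hxy.symm⟩) huS
      | cast i =>
        induction y using Fin.lastCases with
        | last =>
          rw [Fin.snoc_last, Fin.snoc_castSucc] at hxy
          exact absurd ((hgS u).2 ⟨i, hxy⟩) huS
        | cast j =>
          rw [Fin.snoc_castSucc, Fin.snoc_castSucc] at hxy
          rw [hg hxy]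
    · intro x
      rw [mem_insert]
      constructor
      · rintro (rfl | hx)
        · exact ⟨Fin.last k, Fin.snoc_last _ _⟩
        · obtain ⟨i, hi⟩ := (hgS x).1 hx
          exact ⟨i.castSucc, by rw [Fin.snoc_castSucc]; exact hi⟩
      · rintro ⟨i, hi⟩
        induction i using Fin.lastCases with
        | last =>
          rw [Fin.snoc_last] at hi
          exact Or.inl hi.symm
        | cast i =>
          rw [Fin.snoc_castSucc] at hi
          exact Or.inr ((hgS x).2 ⟨i, hi⟩)

/-- the core of a member is a member -/
theorem core : StCore := by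
  intro P hP n K C p hK hp hG e
  have h1 := core_aux P hP n K C p hK.1 hp hG _ C rfl subset_rfl (fun x hx => by
    rw [hp.1 x hx]; exact hx) C.card (fun i => (e i : Fin n))
    (fun i j h => e.injective (Subtype.ext h)) (fun x => ⟨fun hx => ⟨e.symm ⟨x, hx⟩, by simp⟩,
      fun ⟨i, hi⟩ => hi ▸ (e i).2⟩)
  have h2 : (GG K p).comap (fun i => (e i : Fin n)) = K.comap (fun i => (e i : Fin n)) := by
    ext x y
    simp only [SimpleGraph.comap_adj]
    constructor
    · rintro (h | ⟨h, h' | h'⟩)
      · exact h
      · rw [hp.1 _ (e x).2] at h'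
        exact absurd h' h
      · rw [hp.1 _ (e y).2] at h'
        exact absurd h'.symm h
    · exact fun h => Or.inl h
  rw [h2] at h1
  exact h1

end

end Pool.Agent.N99.RF
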