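import Pool.Agent.N99.RF.Depth

/-!
# The membership does not depend on the forest (helper99, task RF/Inv)
-/

set_option autoImplicit false

namespace Pool.Agent.N99.RF

open Finset Classical
open Pool.Agent.N375.RF

noncomputable section

theorem iter_update {V : Type} [DecidableEq V] {p : V → V} {z w : V} (hz : ∀ x, p x ≠ z) (k : ℕ) :
    ∀ x, x ≠ z → (Function.update p z w)^[k] x = p^[k] x := by
  induction k with
  | zero => intro x _; rfl
  | succ k ih =>
    intro x hx
    rw [Function.iterate_succ_apply, Function.iterate_succ_apply, Function.update_of_ne hx]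
    exact ih (p x) (hz x)

theorem rf_update {V : Type} [Fintype V] [DecidableEq V] {C : Finset V} {p : V → V} {z w : V} (hp : IsRF C p)
    (hz : Leaf C p z) (hw : w ≠ z) : IsRF C (Function.update p z w) := by
  refine ⟨fun x hx => ?_, fun x => ?_⟩
  · have : x ≠ z := fun h => hz.1 (h ▸ hx)
    rw [Function.update_of_ne this]
    exact hp.1 x hx
  · by_cases hx : x = z
    · obtain ⟨k, hk⟩ := hp.2 w
      refine ⟨k + 1, ?_⟩
      rw [Function.iterate_succ_apply, hx, Function.update_self, iter_update hz.2 k w hw]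
      exact hk
    · obtain ⟨k, hk⟩ := hp.2 x
      refine ⟨k, ?_⟩
      rw [iter_update hz.2 k x hx]
      exact hk

theorem mem_update (P : (n : ℕ) → Set (SimpleGraph (Fin n))) (hP : LeafClosed P) (n : ℕ)
    (K : SimpleGraph (Fin n)) (C : Finset (Fin n)) (p : Fin n → Fin n)
    (hK : ∀ x y, K.Adj x y → x ∈ C ∧ y ∈ C) {z w : Fin n} (hz : Leaf C p z) (hw : w ≠ z) :
    GG K p ∈ P n ↔ GG K (Function.update p z w) ∈ P n := by
  obtain ⟨m, rfl⟩ : ∃ m, n = m + 1 := ⟨n - 1, by have := z.2; omega⟩
  have h1 : ∃! y, (GG K p).Adj z y := by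
    refine ⟨p z, Or.inr ⟨(hz.2 z).symm, Or.inl rfl⟩, fun y hy => ?_⟩
    rcases hy with hy | ⟨-, hy | hy⟩
    · exact absurd (hK _ _ hy).1 hz.1
    · exact hy.symm
    · exact absurd hy (hz.2 y)
  have h2 : ∃! y, (GG K (Function.update p z w)).Adj z y := by
    refine ⟨w, Or.inr ⟨hw.symm, Or.inl (Function.update_self _ _ _)⟩, fun y hy => ?_⟩
    rcases hy with hy | ⟨hy', hy | hy⟩
    · exact absurd (hK _ _ hy).1 hz.1
    · rw [Function.update_self] at hy
      exact hy.symm
    · rw [Function.update_of_ne hy'.symm] at hy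
      exact absurd hy (hz.2 y)
  have h3 : (GG K (Function.update p z w)).comap z.succAbove = (GG K p).comap z.succAbove := by
    ext x y
    simp only [SimpleGraph.comap_adj, GG]
    rw [Function.update_of_ne (Fin.succAbove_ne z x), Function.update_of_ne (Fin.succAbove_ne z y)]
  rw [hP.2 m _ z h1, hP.2 m _ z h2, h3]

theorem inv_aux (P : (n : ℕ) → Set (SimpleGraph (Fin n))) (hP : LeafClosed P) (n : ℕ)
    (K : SimpleGraph (Fin n)) (C : Finset (Fin n))
    (hK : ∀ x y, K.Adj x y → x ∈ C ∧ y ∈ C) (c₀ : Fin n) (hc : c₀ ∈ C) (m : ℕ) :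
    ∀ p : Fin n → Fin n, IsRF C p → (univ.filter fun x => x ∉ C ∧ p x ≠ c₀).card = m →
      (GG K p ∈ P n ↔ GG K (fun x => if x ∈ C then x else c₀) ∈ P n) := by
  induction m with
  | zero =>
    intro p hp hm
    have h1 : p = fun x => if x ∈ C then x else c₀ := by
      funext x
      split_ifs with h
      · exact hp.1 x h
      · by_contra hcon
        rw [card_eq_zero, filter_eq_empty_iff] at hm
        exact hm (mem_univ x) ⟨h, hcon⟩
    rw [← h1]
  | succ m ih =>
    intro p hp hm
    have hne : (univ.filter fun x => x ∉ C ∧ p x ≠ c₀).Nonempty := by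
      rw [← card_pos, hm]; exact Nat.succ_pos m
    obtain ⟨z, hz, hmax⟩ := exists_max_image _ (dep C p) hne
    rw [mem_filter] at hz
    have hleaf : Leaf C p z := by
      refine ⟨hz.2.1, fun y hy => ?_⟩
      have hyC : y ∉ C := by
        intro h
        rw [hp.1 y h] at hy
        exact hz.2.1 (hy ▸ h)
      have h1 := hmax y (by
        rw [mem_filter]
        refine ⟨mem_univ _, hyC, ?_⟩
        rw [hy]
        intro h
        exact hz.2.1 (h ▸ hc))
      have h2 := dep_succ hp hyC
      rw [hy] at h2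
      omega
    have hw : c₀ ≠ z := fun h => hz.2.1 (h ▸ hc)
    rw [mem_update P hP n K C p hK hleaf hw]
    apply ih _ (rf_update hp hleaf hw)
    have h3 : (univ.filter fun x => x ∉ C ∧ (Function.update p z c₀) x ≠ c₀) =
        (univ.filter fun x => x ∉ C ∧ p x ≠ c₀).erase z := by
      ext x
      simp only [mem_filter, mem_erase, mem_univ, true_and]
      by_cases hx : x = z
      · subst hx
        simp
      · rw [Function.update_of_ne hx]
        exact ⟨fun h => ⟨hx, h⟩, fun h => h.2⟩
    rw [h3, card_erase_of_mem (by rw [mem_filter]; exact hz), hm]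
    rfl

/-- the membership does not depend on the forest -/
theorem inv : StInv := by
  intro P hP n K C p p' hK hC hp hp' h
  obtain ⟨c₀, hc⟩ := hC
  rw [inv_aux P hP n K C hK c₀ hc _ p' hp' rfl]
  exact (inv_aux P hP n K C hK c₀ hc _ p hp rfl).1 h

end

end Pool.Agent.N99.RF
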