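import Pool.Agent.N375.RF.Stm

/-!
# Few forests have few leaves (helper99, task RF/10)
-/

set_option autoImplicit false

namespace Pool.Agent.N99.RF

open Finset Classical
open Pool.Agent.N375.RF

noncomputable section

variable {V : Type}

/-! ### changing a function outside an invariant set -/

theorem iter_eq {p q : V → V} {S : Set V} (hS : ∀ x ∈ S, q x ∈ S) (hpq : ∀ x ∈ S, p x = q x)
    (k : ℕ) : ∀ x ∈ S, p^[k] x = q^[k] x := by
  induction k with
  | zero => intro x _; rfl
  | succ k ih =>
    intro x hx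
    rw [Function.iterate_succ_apply, Function.iterate_succ_apply, hpq x hx]
    exact ih (q x) (hS x hx)

variable [Fintype V]

theorem rfu_univ (C : Finset V) : RFU C univ = RF C := by
  ext p
  simp only [RFU, RF, mem_filter, mem_univ, true_and, not_true_eq_false, false_or, IsRF,
    forall_const, implies_true]

theorem card_one (C : Finset V) {x : V} (hx : x ∉ C) :
    (RFU C (univ.erase x)).card * (univ.erase x).card ≤
      ((RF C).filter fun p => Leaf C p x).card := by
  rw [← card_product]
  refine card_le_card_of_injOn (fun r => Function.update r.1 x r.2) ?_ ?_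
  · rintro ⟨q, w⟩ hr
    rw [mem_coe, mem_product] at hr
    obtain ⟨hq, hw⟩ := hr
    simp only [RFU, mem_filter, mem_univ, true_and] at hq
    obtain ⟨h1, h2, h3⟩ := hq
    simp only [mem_erase, mem_univ, and_true] at hw h1 h2 h3
    have hit : ∀ k, ∀ y ∈ {y : V | y ≠ x}, (Function.update q x w)^[k] y = q^[k] y := fun k =>
      iter_eq (S := {y : V | y ≠ x}) (fun y hy => h2 y hy)
        (fun y hy => Function.update_of_ne hy _ _) k
    rw [mem_coe, mem_filter]
    refine ⟨?_, hx, ?_⟩
    · rw [RF, mem_filter]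
      refine ⟨mem_univ _, fun y hy => ?_, fun y => ?_⟩
      · have : y ≠ x := fun h => hx (h ▸ hy)
        change Function.update q x w y = y
        rw [Function.update_of_ne this]
        exact h1 y (Or.inr hy)
      · by_cases hy : y = x
        · obtain ⟨k, hk⟩ := h3 w hw
          refine ⟨k + 1, ?_⟩
          rw [Function.iterate_succ_apply]
          change (Function.update q x w)^[k] (Function.update q x w y) ∈ C
          rw [hy, Function.update_self, hit k w hw]
          exact hk
        · obtain ⟨k, hk⟩ := h3 y hy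
          refine ⟨k, ?_⟩
          change (Function.update q x w)^[k] y ∈ C
          rw [hit k y hy]
          exact hk
    · intro y
      change Function.update q x w y ≠ x
      by_cases hy : y = x
      · rw [hy, Function.update_self]
        exact hw
      · rw [Function.update_of_ne hy]
        exact h2 y hy
  · rintro ⟨q, w⟩ hr ⟨q', w'⟩ hr' h
    rw [mem_coe, mem_product] at hr hr'
    have hq := hr.1
    have hq' := hr'.1
    simp only [RFU, mem_filter, mem_univ, true_and] at hq hq'
    have h1 : q x = x := hq.1 x (Or.inl (by simp))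
    have h1' : q' x = x := hq'.1 x (Or.inl (by simp))
    change Function.update q x w = Function.update q' x w' at h
    have h2 : w = w' := by
      have := congrFun h x
      rwa [Function.update_self, Function.update_self] at this
    have h3 : q = q' := by
      funext y
      by_cases hy : y = x
      · rw [hy, h1, h1']
      · have := congrFun h y
        rwa [Function.update_of_ne hy, Function.update_of_ne hy] at this
    rw [h2, h3]

theorem card_two (C : Finset V) {x y : V} (hxy : x ≠ y) :
    ((RF C).filter fun p => Leaf C p x ∧ Leaf C p y).card ≤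
      (RFU C (univ \ {x, y})).card * ((univ \ {x, y} : Finset V).card *
        (univ \ {x, y} : Finset V).card) := by
  rw [← card_product, ← card_product]
  refine card_le_card_of_injOn (fun p => (Function.update (Function.update p x x) y y,
    (p x, p y))) ?_ ?_
  · intro p hp
    rw [mem_coe, mem_filter, RF, mem_filter] at hp
    obtain ⟨⟨-, h1, h2⟩, hx, hy⟩ := hp
    have hmem : ∀ z : V, p z ∈ (univ \ {x, y} : Finset V) := fun z => by
      rw [mem_sdiff, mem_insert, mem_singleton]
      exact ⟨mem_univ _, fun h => h.elim (hx.2 z) (hy.2 z)⟩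
    have hU : ∀ z : V, z ∈ (univ \ {x, y} : Finset V) ↔ z ≠ x ∧ z ≠ y := fun z => by
      rw [mem_sdiff, mem_insert, mem_singleton, not_or]
      exact ⟨fun h => h.2, fun h => ⟨mem_univ _, h⟩⟩
    have hupd : ∀ z : V, z ≠ x → z ≠ y → Function.update (Function.update p x x) y y z = p z :=
      fun z hzx hzy => by rw [Function.update_of_ne hzy, Function.update_of_ne hzx]
    rw [mem_coe, mem_product, mem_product]
    refine ⟨?_, hmem x, hmem y⟩
    change Function.update (Function.update p x x) y y ∈ RFU C (univ \ {x, y})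
    rw [RFU, mem_filter]
    refine ⟨mem_univ _, fun z hz => ?_, fun z hz => ?_, fun z hz => ?_⟩
    · by_cases hzy : z = y
      · rw [hzy, Function.update_self]
      · by_cases hzx : z = x
        · rw [hzx, Function.update_of_ne hxy, Function.update_self]
        · rw [hupd z hzx hzy]
          rcases hz with hz | hz
          · exact absurd ((hU z).2 ⟨hzx, hzy⟩) hz
          · exact h1 z hz
    · obtain ⟨hzx, hzy⟩ := (hU z).1 hz
      rw [hupd z hzx hzy]
      exact hmem z
    · obtain ⟨k, hk⟩ := h2 z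
      refine ⟨k, ?_⟩
      have := iter_eq (p := Function.update (Function.update p x x) y y) (q := p)
        (S := {z : V | z ≠ x ∧ z ≠ y}) (fun z _ => (hU _).1 (hmem z))
        (fun z hz => hupd z hz.1 hz.2) k z ((hU z).1 hz)
      rw [this]
      exact hk
  · intro p hp q hq h
    simp only [Prod.mk.injEq] at h
    obtain ⟨h1, h2, h3⟩ := h
    funext z
    by_cases hzy : z = y
    · rw [hzy]; exact h3
    · by_cases hzx : z = x
      · rw [hzx]; exact h2
      · have := congrFun h1 z
        rwa [Function.update_of_ne hzy, Function.update_of_ne hzx, Function.update_of_ne hzy,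
          Function.update_of_ne hzx] at this

/-! ### the moments -/

theorem sum_one (C : Finset V) :
    ∑ p ∈ RF C, (leaves C p).card = ∑ x ∈ Cᶜ, ((RF C).filter fun p => Leaf C p x).card := by
  have h1 : ∀ p, leaves C p = Cᶜ.filter fun x => Leaf C p x := by
    intro p
    ext x
    simp only [leaves, mem_filter, mem_univ, true_and, mem_compl]
    exact ⟨fun h => ⟨h.1, h⟩, fun h => h.2⟩
  simp only [h1, card_filter]
  exact sum_comm

theorem sum_two (C : Finset V) :
    ∑ p ∈ RF C, (leaves C p).offDiag.card =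
      ∑ r ∈ Cᶜ.offDiag, ((RF C).filter fun p => Leaf C p r.1 ∧ Leaf C p r.2).card := by
  have h1 : ∀ p, (leaves C p).offDiag = Cᶜ.offDiag.filter fun r => Leaf C p r.1 ∧ Leaf C p r.2 := by
    intro p
    ext r
    simp only [leaves, mem_filter, mem_univ, true_and, mem_compl, mem_offDiag]
    exact ⟨fun h => ⟨⟨h.1.1, h.2.1.1, h.2.2⟩, h.1, h.2.1⟩, fun h => ⟨h.2.1, h.2.2, h.1.2.2⟩⟩
  simp only [h1, card_filter]
  exact sum_comm

theorem quarter {n k : ℕ} (hn : 2 ≤ n) (hk : k ≤ n - 1) :
    (1 / 4 : ℝ) * (n : ℝ) ^ k ≤ ((n : ℝ) - 1) ^ k := by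
  have hn' : (2 : ℝ) ≤ n := by exact_mod_cast hn
  have h0 : (0 : ℝ) < (n : ℝ) - 1 := by linarith
  have h1 : ((n : ℝ) / (n - 1)) ^ k ≤ ((n : ℝ) / (n - 1)) ^ (n - 1) := by
    apply pow_le_pow_right₀ _ hk
    rw [le_div_iff₀ h0]; linarith
  have h2 : ((n : ℝ) / (n - 1)) ^ (n - 1) ≤ Real.exp 1 := by
    have e1 : (n : ℝ) / (n - 1) ≤ Real.exp (1 / ((n : ℝ) - 1)) := by
      have := Real.add_one_le_exp (1 / ((n : ℝ) - 1))
      have e2 : (n : ℝ) / (n - 1) = 1 / ((n : ℝ) - 1) + 1 := by
        field_simp
        ring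
      rw [e2]; exact this
    calc ((n : ℝ) / (n - 1)) ^ (n - 1) ≤ (Real.exp (1 / ((n : ℝ) - 1))) ^ (n - 1) :=
          pow_le_pow_left₀ (by positivity) e1 _
      _ = Real.exp 1 := by
          rw [← Real.exp_nat_mul, Nat.cast_sub (by omega), Nat.cast_one]
          congr 1
          field_simp
  have h3 : Real.exp 1 ≤ 4 := by
    have := Real.exp_one_lt_d9
    linarith
  have h4 : ((n : ℝ) / (n - 1)) ^ k ≤ 4 := h1.trans (h2.trans h3)
  rw [div_pow, div_le_iff₀ (by positivity)] at h4
  linarith

/-- few forests have few leaves -/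
theorem lem10 (h : StCayley) : St10 := by
  intro V _ C hC
  set n := Fintype.card V with hn
  set c := C.card with hc
  set m := Cᶜ.card with hm
  have hnm : n = c + m := by rw [hn, hc, hm, card_add_card_compl]
  have hc1 : 1 ≤ c := card_pos.2 hC
  rcases Nat.eq_zero_or_pos m with hm0 | hm1
  · rw [hm0]; simp
  have hn2 : 2 ≤ n := by omega
  -- the number of forests
  have hR : (RF C).card = c * n ^ (m - 1) := by
    have h1 := h V C univ (subset_univ C)
    rw [rfu_univ, card_univ, ← hn, ← hc] at h1
    have h2 : (univ \ C).card = m := by rw [hm, compl_eq_univ_sdiff]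
    rw [h2] at h1
    have h3 : n ^ m = n ^ (m - 1) * n := by
      rw [← pow_succ]; congr 1; omega
    rw [h3, ← mul_assoc] at h1
    exact Nat.eq_of_mul_eq_mul_right (by omega) h1
  -- one leaf
  have hF1 : ∀ x ∈ Cᶜ, c * (n - 1) ^ (m - 1) ≤ ((RF C).filter fun p => Leaf C p x).card := by
    intro x hx
    rw [mem_compl] at hx
    refine le_trans (le_of_eq ?_) (card_one C hx)
    rw [h V C (univ.erase x) (fun y hy => by
      rw [mem_erase]; exact ⟨fun h => hx (h ▸ hy), mem_univ _⟩)]
    rw [card_erase_of_mem (mem_univ x), card_univ, ← hn, ← hc]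
    have : (univ.erase x \ C).card = m - 1 := by
      rw [erase_sdiff_comm, card_erase_of_mem (by simp [hx]), hm, compl_eq_univ_sdiff]
    rw [this]
  -- two leaves
  have hF2 : ∀ r ∈ Cᶜ.offDiag, ((RF C).filter fun p => Leaf C p r.1 ∧ Leaf C p r.2).card ≤
      c * (n - 2) ^ (m - 1) := by
    rintro ⟨x, y⟩ hr
    rw [mem_offDiag, mem_compl, mem_compl] at hr
    obtain ⟨hx, hy, hxy⟩ := hr
    simp only at hx hy hxy
    refine (card_two C hxy).trans (le_of_eq ?_)
    have hU : (univ \ {x, y} : Finset V).card = n - 2 := by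
      rw [← compl_eq_univ_sdiff, card_compl, card_pair hxy]
    have hUC : ((univ \ {x, y} : Finset V) \ C).card = m - 2 := by
      have : ((univ \ {x, y} : Finset V) \ C) = Cᶜ \ {x, y} := by
        ext z
        simp only [mem_sdiff, mem_univ, true_and, mem_compl]
        tauto
      rw [this, card_sdiff_of_subset, card_pair hxy]
      intro z hz
      rw [mem_insert, mem_singleton] at hz
      rw [mem_compl]
      rcases hz with rfl | rfl <;> assumption
    have hm2 : 2 ≤ m := by
      have : ({x, y} : Finset V) ⊆ Cᶜ := by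
        intro z hz
        rw [mem_insert, mem_singleton] at hz
        rw [mem_compl]
        rcases hz with rfl | rfl <;> assumption
      have := card_le_card this
      rwa [card_pair hxy] at this
    have h1 := h V C (univ \ {x, y}) (by
      intro z hz
      rw [mem_sdiff, mem_insert, mem_singleton]
      refine ⟨mem_univ _, ?_⟩
      rintro (rfl | rfl)
      · exact hx hz
      · exact hy hz)
    rw [hU, hUC, ← hc] at h1
    rw [hU, ← mul_assoc, h1, mul_assoc, ← pow_succ]
    congr 2
    omega
  -- the moments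
  have hS1 : m * (c * (n - 1) ^ (m - 1)) ≤ ∑ p ∈ RF C, (leaves C p).card := by
    rw [sum_one]
    calc m * (c * (n - 1) ^ (m - 1)) = ∑ _x ∈ Cᶜ, c * (n - 1) ^ (m - 1) := by
          rw [sum_const, smul_eq_mul]
      _ ≤ _ := sum_le_sum hF1
  have hS2 : ∑ p ∈ RF C, (leaves C p).offDiag.card ≤ (m * m - m) * (c * (n - 2) ^ (m - 1)) := by
    rw [sum_two]
    calc _ ≤ ∑ _r ∈ Cᶜ.offDiag, c * (n - 2) ^ (m - 1) := sum_le_sum hF2
      _ = _ := by rw [sum_const, smul_eq_mul, offDiag_card]
  -- passage to reals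
  set R : ℝ := ((RF C).card : ℝ) with hRdef
  set S : ℝ := ∑ p ∈ RF C, ((leaves C p).card : ℝ) with hSdef
  have hnR : (2 : ℝ) ≤ n := by exact_mod_cast hn2
  have hcR : (1 : ℝ) ≤ c := by exact_mod_cast hc1
  have hmR : (1 : ℝ) ≤ m := by exact_mod_cast hm1
  have hR' : R = c * (n : ℝ) ^ (m - 1) := by
    rw [hRdef, hR]; push_cast; ring
  have hRpos : 0 < R := by
    rw [hR']; positivity
  have hS1' : (m : ℝ) * (c * ((n : ℝ) - 1) ^ (m - 1)) ≤ S := by
    have := (Nat.cast_le (α := ℝ)).2 hS1
    rw [Nat.cast_sum] at this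
    push_cast [Nat.cast_sub (show 1 ≤ n by omega)] at this
    exact this
  have hS2' : ∑ p ∈ RF C, (((leaves C p).card : ℝ) ^ 2 - (leaves C p).card) ≤
      (m : ℝ) * m * (c * ((n : ℝ) - 2) ^ (m - 1)) := by
    have h1 := (Nat.cast_le (α := ℝ)).2 hS2
    rw [Nat.cast_sum] at h1
    have h2 : ∀ p, ((leaves C p).offDiag.card : ℝ) = ((leaves C p).card : ℝ) ^ 2 -
        (leaves C p).card := by
      intro p
      rw [offDiag_card, Nat.cast_sub (Nat.le_mul_self _), Nat.cast_mul, sq]
    rw [sum_congr rfl fun p _ => h2 p] at h1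
    refine h1.trans ?_
    rw [Nat.cast_mul, Nat.cast_sub (Nat.le_mul_self _), Nat.cast_mul, Nat.cast_mul, Nat.cast_pow,
      Nat.cast_sub hn2, Nat.cast_ofNat]
    have h3 : 0 ≤ (c : ℝ) * ((n : ℝ) - 2) ^ (m - 1) :=
      mul_nonneg (by linarith) (pow_nonneg (by linarith) _)
    apply mul_le_mul_of_nonneg_right _ h3
    linarith
  -- the second moment is at most the square of the first
  have hkey : (m : ℝ) * m * (c * ((n : ℝ) - 2) ^ (m - 1)) * R ≤ S ^ 2 := by
    have h1 : ((m : ℝ) * (c * ((n : ℝ) - 1) ^ (m - 1))) ^ 2 ≤ S ^ 2 := by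
      apply pow_le_pow_left₀ _ hS1'
      have : 0 ≤ ((n : ℝ) - 1) ^ (m - 1) := pow_nonneg (by linarith) _
      positivity
    refine le_trans ?_ h1
    rw [hR']
    have h2 : (((n : ℝ) - 2) * n) ^ (m - 1) ≤ (((n : ℝ) - 1) ^ 2) ^ (m - 1) := by
      apply pow_le_pow_left₀
      · exact mul_nonneg (by linarith) (by linarith)
      · nlinarith
    rw [mul_pow] at h2
    calc (m : ℝ) * m * (c * ((n : ℝ) - 2) ^ (m - 1)) * (c * (n : ℝ) ^ (m - 1)) =
          (m * c) ^ 2 * (((n : ℝ) - 2) ^ (m - 1) * (n : ℝ) ^ (m - 1)) := by ring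
      _ ≤ (m * c) ^ 2 * ((((n : ℝ) - 1) ^ 2) ^ (m - 1)) :=
          mul_le_mul_of_nonneg_left h2 (by positivity)
      _ = ((m : ℝ) * (c * ((n : ℝ) - 1) ^ (m - 1))) ^ 2 := by
          rw [← pow_mul, mul_comm 2 (m - 1), pow_mul]; ring
  -- the mean is large
  have hmean : (m : ℝ) / 4 * R ≤ S := by
    refine le_trans ?_ hS1'
    rw [hR']
    have := quarter hn2 (show m - 1 ≤ n - 1 by omega)
    calc (m : ℝ) / 4 * (c * (n : ℝ) ^ (m - 1)) = m * c * (1 / 4 * (n : ℝ) ^ (m - 1)) := by ring
      _ ≤ m * c * ((n : ℝ) - 1) ^ (m - 1) := mul_le_mul_of_nonneg_left this (by positivity)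
      _ = _ := by ring
  set μ := S / R with hμ
  have hSμ : S = μ * R := by rw [hμ]; field_simp
  have hμm : (m : ℝ) / 4 ≤ μ := by
    rw [hμ, le_div_iff₀ hRpos]; exact hmean
  have hμpos : 0 < μ := by linarith
  have hvar : ∑ p ∈ RF C, (((leaves C p).card : ℝ) - μ) ^ 2 ≤ μ * R := by
    have h1 : ∑ p ∈ RF C, (((leaves C p).card : ℝ) - μ) ^ 2 =
        ∑ p ∈ RF C, (((leaves C p).card : ℝ) ^ 2 - (leaves C p).card) + S - 2 * μ * S +
          μ ^ 2 * R := by
      rw [hSdef, hRdef, mul_sum, ← sum_add_distrib, ← sum_sub_distrib, ← nsmul_one,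
        ← sum_const, mul_sum, ← sum_add_distrib]
      refine sum_congr rfl fun p _ => by ring
    have h2 : (m : ℝ) * m * (c * ((n : ℝ) - 2) ^ (m - 1)) ≤ μ ^ 2 * R := by
      rw [hSμ] at hkey
      have : (m : ℝ) * m * (c * ((n : ℝ) - 2) ^ (m - 1)) * R ≤ μ ^ 2 * R * R := by
        calc _ ≤ (μ * R) ^ 2 := hkey
          _ = _ := by ring
      exact le_of_mul_le_mul_right this hRpos
    rw [h1, hSμ]
    nlinarith
  -- Chebyshev
  have hB : (((RF C).filter fun p => 8 * (leaves C p).card < m).card : ℝ) * (μ ^ 2 / 4) ≤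
      ∑ p ∈ RF C, (((leaves C p).card : ℝ) - μ) ^ 2 := by
    calc _ = ∑ p ∈ (RF C).filter fun p => 8 * (leaves C p).card < m, μ ^ 2 / 4 := by
          rw [sum_const, nsmul_eq_mul]
      _ ≤ ∑ p ∈ (RF C).filter fun p => 8 * (leaves C p).card < m,
            (((leaves C p).card : ℝ) - μ) ^ 2 := by
          refine sum_le_sum fun p hp => ?_
          rw [mem_filter] at hp
          have h1 : (8 : ℝ) * (leaves C p).card < m := by exact_mod_cast hp.2
          have h2 : ((leaves C p).card : ℝ) ≤ μ / 2 := by linarith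
          nlinarith
      _ ≤ _ := sum_le_sum_of_subset_of_nonneg (filter_subset _ _) fun _ _ _ => sq_nonneg _
  have hfin : (((RF C).filter fun p => 8 * (leaves C p).card < m).card : ℝ) * m ≤ 16 * R := by
    set B : ℝ := (((RF C).filter fun p => 8 * (leaves C p).card < m).card : ℝ) with hBdef
    have hB0 : 0 ≤ B := Nat.cast_nonneg _
    have h1 : B * (μ ^ 2 / 4) ≤ μ * R := hB.trans hvar
    have h2 : (B * μ) * μ ≤ (4 * R) * μ := by linarith
    have h3 : B * μ ≤ 4 * R := le_of_mul_le_mul_right h2 hμpos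
    have h4 : B * (m / 4) ≤ B * μ := mul_le_mul_of_nonneg_left hμm hB0
    linarith
  rw [hRdef] at hfin
  exact_mod_cast hfin

end

end Pool.Agent.N99.RF
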