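import Pool.Agent.N99.RF.Depth

/-!
# Uniqueness of the core and the parent function (helper99, task RF/Uniq)
-/

set_option autoImplicit false

namespace Pool.Agent.N99.RF

open Finset Classical
open Pool.Agent.N375.RF

noncomputable section

variable {V : Type} [Fintype V]

theorem sub_core {K : SimpleGraph V} {C : Finset V} {p : V → V} (hK : IsCore K C)
    (hp : IsRF C p) {K' : SimpleGraph V} {C' : Finset V} {p' : V → V} (hK' : IsCore K' C')
    (hG : GG K p = GG K' p') : C' ⊆ C := by
  by_contra hcon
  have hne : (C' \ C).Nonempty := by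
    rw [sdiff_nonempty]
    exact hcon
  obtain ⟨x, hx, hmax⟩ := exists_max_image _ (dep C p) hne
  rw [mem_sdiff] at hx
  obtain ⟨y, z, hyz, hy, hz⟩ := hK'.2 x hx.1
  have key : ∀ y, K'.Adj x y → y = p x := by
    intro y hy
    have h1 : (GG K p).Adj x y := by
      rw [hG]; exact Or.inl hy
    rcases h1 with h1 | ⟨h0, h1 | h1⟩
    · exact absurd (hK.1 _ _ h1).1 hx.2
    · exact h1.symm
    · exfalso
      have hyC : y ∉ C := by
        intro h
        rw [hp.1 y h] at h1
        exact hx.2 (h1 ▸ h)
      have h2 := hmax y (mem_sdiff.2 ⟨(hK'.1 _ _ hy).2, hyC⟩)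
      have h3 := dep_succ hp hyC
      rw [h1] at h3
      omega
  exact hyz ((key y hy).trans (key z hz).symm)

omit [Fintype V] in
theorem adj_core {K : SimpleGraph V} {C : Finset V} {p : V → V} (hp : IsRF C p) {x y : V}
    (hx : x ∈ C) (hy : y ∈ C) : (GG K p).Adj x y ↔ K.Adj x y := by
  constructor
  · rintro (h | ⟨h, h' | h'⟩)
    · exact h
    · rw [hp.1 x hx] at h'
      exact absurd h' h
    · rw [hp.1 y hy] at h'
      exact absurd h'.symm h
  · exact fun h => Or.inl h

/-- uniqueness of the core and the parent function -/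
theorem uniq : StUniq := by
  intro V _ K K' C C' p p' hK hp hK' hp' hG
  have hC : C = C' := Subset.antisymm (sub_core hK' hp' hK hG.symm) (sub_core hK hp hK' hG)
  subst hC
  have hKK : K = K' := by
    ext x y
    constructor
    · intro h
      obtain ⟨hx, hy⟩ := hK.1 x y h
      rw [← adj_core hp' hx hy, ← hG]
      exact Or.inl h
    · intro h
      obtain ⟨hx, hy⟩ := hK'.1 x y h
      rw [← adj_core hp hx hy, hG]
      exact Or.inl h
  refine ⟨rfl, hKK, ?_⟩
  have key : ∀ d : ℕ, ∀ x, dep C p x = d → p x = p' x := by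
    intro d
    induction d with
    | zero =>
      intro x hx
      have h1 := dep_mem hp x
      rw [hx] at h1
      have h1 : x ∈ C := h1
      rw [hp.1 x h1, hp'.1 x h1]
    | succ d ih =>
      intro x hx
      have hxC : x ∉ C := by
        intro h
        rw [dep_zero h] at hx
        omega
      have h1 : (GG K' p').Adj x (p x) := by
        rw [← hG]
        exact Or.inr ⟨(ne_self hp hxC).symm, Or.inl rfl⟩
      rcases h1 with h1 | ⟨h0, h1 | h1⟩
      · exact absurd (hK'.1 _ _ h1).1 hxC
      · exact h1.symm
      · exfalso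
        have h2 := dep_succ hp hxC
        rw [← ih (p x) (by omega)] at h1
        exact ne_two hp hxC h1
  funext x
  exact key _ x rfl

end

end Pool.Agent.N99.RF
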