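import Pool.Agent.N375.RF.Stm

/-!
# Depth in rooted forests (helper99, project RF)
-/

set_option autoImplicit false

namespace Pool.Agent.N99.RF

open Finset Classical
open Pool.Agent.N375.RF

noncomputable section

variable {V : Type}

/-- the number of steps to the root -/
def dep (C : Finset V) (p : V → V) (x : V) : ℕ := sInf {k | p^[k] x ∈ C}

theorem dep_mem {C : Finset V} {p : V → V} [Fintype V] (h : IsRF C p) (x : V) :
    p^[dep C p x] x ∈ C :=
  Nat.sInf_mem (s := {k | p^[k] x ∈ C}) (h.2 x)

theorem dep_le {C : Finset V} {p : V → V} {x : V} {k : ℕ} (h : p^[k] x ∈ C) : dep C p x ≤ k :=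
  Nat.sInf_le (s := {k | p^[k] x ∈ C}) h

theorem dep_zero {C : Finset V} {p : V → V} {x : V} (h : x ∈ C) : dep C p x = 0 :=
  Nat.le_zero.1 (dep_le (k := 0) h)

theorem dep_succ {C : Finset V} {p : V → V} [Fintype V] (h : IsRF C p) {x : V} (hx : x ∉ C) :
    dep C p x = dep C p (p x) + 1 := by
  apply le_antisymm
  · apply dep_le
    rw [Function.iterate_succ_apply]
    exact dep_mem h (p x)
  · have h1 := dep_mem h x
    cases hk : dep C p x with
    | zero => rw [hk] at h1; exact absurd h1 hx
    | succ k =>
      rw [hk, Function.iterate_succ_apply] at h1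
      exact Nat.succ_le_succ (dep_le h1)

theorem ne_self {C : Finset V} {p : V → V} [Fintype V] (h : IsRF C p) {x : V} (hx : x ∉ C) :
    p x ≠ x := by
  intro h1
  have := dep_succ h hx
  rw [h1] at this
  omega

theorem ne_two {C : Finset V} {p : V → V} [Fintype V] (h : IsRF C p) {x : V} (hx : x ∉ C) :
    p (p x) ≠ x := by
  intro h1
  by_cases h2 : p x ∈ C
  · rw [h.1 _ h2] at h1
    exact ne_self h hx h1
  · have h3 := dep_succ h hx
    have h4 := dep_succ h h2
    rw [h1] at h4
    omega

end

end Pool.Agent.N99.RF
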